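import Pool.Agent.W2helper66.XP.Stm

/-!
Project XP, piece UNIQ.
-/

namespace Pool.Agent.W2helper24.XP

open Pool.Agent.W2helper66.XP

theorem uniq : UNIQ := by
  intro m c hc hsep i0
  have hm : 0 < m := i0.pos
  -- the quotients
  have hql : ∀ i, c i / 8 < m := by
    intro i
    have := hc i
    omega
  set q : Fin m → Fin m := fun i => ⟨c i / 8, hql i⟩ with hq
  have hqinj : Function.Injective q := by
    intro i j hij
    by_contra hne
    have h1 : c i / 8 = c j / 8 := by
      have := congrArg Fin.val hij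
      simpa [hq] using this
    rcases lt_or_gt_of_ne hne with h | h
    · rcases hsep i j h with h2 | h2 <;> omega
    · rcases hsep j i h with h2 | h2 <;> omega
  have hqbij : Function.Bijective q := Finite.injective_iff_bijective.mp hqinj
  obtain ⟨p, hp1, hp2⟩ := Function.bijective_iff_has_inverse.mp hqbij
  -- hp1 : LeftInverse p q, hp2 : RightInverse p q
  have hqp : ∀ k : Fin m, c (p k) / 8 = (k : ℕ) := by
    intro k
    have := congrArg Fin.val (hp2 k)
    simpa [hq] using this
  have hdist : ∀ k l : Fin m, (k : ℕ) < (l : ℕ) → c (p k) + 8 ≤ c (p l) ∧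
      (p k < p l → c (p k) + 9 ≤ c (p l)) := by
    intro k l hkl
    have h1 := hqp k
    have h2 := hqp l
    have hne : p k ≠ p l := by
      intro h
      rw [h] at h1
      omega
    rcases lt_or_gt_of_ne hne with h | h
    · rcases hsep _ _ h with h3 | h3
      · omega
      · exact ⟨by omega, fun _ => h3⟩
    · rcases hsep _ _ h with h3 | h3
      · exact ⟨h3, fun h4 => absurd h4 (not_lt.mpr h.le)⟩
      · omega
  -- the values
  have hval : ∀ d : ℕ, ∀ k : Fin m, (k : ℕ) + d + 1 = m → c (p k) = 8 * (k : ℕ) := by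
    intro d
    induction d with
    | zero =>
      intro k hk
      have h1 := hqp k
      have h2 := hc (p k)
      omega
    | succ d ih =>
      intro k hk
      have h1 := hqp k
      have hl : (k : ℕ) + 1 < m := by omega
      have h2 := ih ⟨(k : ℕ) + 1, hl⟩ (by simp only; omega)
      have h3 := (hdist k ⟨(k : ℕ) + 1, hl⟩ (by simp only; omega)).1
      simp only at h2
      omega
  have hval' : ∀ k : Fin m, c (p k) = 8 * (k : ℕ) := fun k =>
    hval (m - 1 - (k : ℕ)) k (by have := k.isLt; omega)
  have hdec : ∀ k l : Fin m, (l : ℕ) = (k : ℕ) + 1 → (p l : ℕ) < (p k : ℕ) := by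
    intro k l hl
    have h1 := hval' k
    have h2 := hval' l
    have h3 := (hdist k l (by omega)).2
    by_contra hlt
    have hne : p k ≠ p l := by
      intro h
      rw [h] at h1
      omega
    have h4 : p k < p l := by
      rcases lt_or_gt_of_ne hne with h | h
      · exact h
      · exact absurd h hlt
    have := h3 h4
    omega
  have hup : ∀ d : ℕ, ∀ h : d < m, (p ⟨d, h⟩ : ℕ) + d + 1 ≤ m := by
    intro d
    induction d with
    | zero =>
      intro h
      have := (p ⟨0, h⟩).isLt
      omega
    | succ d ih =>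
      intro h
      have h1 := ih (by omega)
      have h2 := hdec ⟨d, by omega⟩ ⟨d + 1, h⟩ rfl
      omega
  have hlo : ∀ d : ℕ, ∀ k : Fin m, (k : ℕ) + d + 1 = m → d ≤ (p k : ℕ) := by
    intro d
    induction d with
    | zero =>
      intro k _
      exact Nat.zero_le _
    | succ d ih =>
      intro k hk
      have hl : (k : ℕ) + 1 < m := by omega
      have h2 := ih ⟨(k : ℕ) + 1, hl⟩ (by simp only; omega)
      have h3 := hdec k ⟨(k : ℕ) + 1, hl⟩ rfl
      omega
  -- conclusion
  have h1 : c i0 = 8 * (q i0 : ℕ) := by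
    have h := hval' (q i0)
    rwa [hp1 i0] at h
  have h2 : (i0 : ℕ) + (q i0 : ℕ) + 1 ≤ m := by
    have h := hup (q i0 : ℕ) (q i0).isLt
    have h' : p ⟨(q i0 : ℕ), (q i0).isLt⟩ = i0 := hp1 i0
    rw [h'] at h
    exact h
  have h3 : m - 1 - (q i0 : ℕ) ≤ (i0 : ℕ) := by
    have h := hlo (m - 1 - (q i0 : ℕ)) (q i0) (by have := (q i0).isLt; omega)
    rwa [hp1 i0] at h
  rw [h1]
  omega

end Pool.Agent.W2helper24.XP
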